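import Pool.Agent.W845.HC.Base

set_option autoImplicit false
open scoped Classical
open scoped BigOperators

namespace Pool.Agent.W658.HC

open Pool.Agent.W845.HC Pool.Agent.W845.PM

theorem round_thm : S_GENF → S_DMONO → S_GOODP → S_ROUND := by
  intro hG hD hP n s q G hn hs hdeg hdft h0 h1
  set P := (Finset.univ.filter (fun e : Fin n × Fin n =>
    e.1 ≠ e.2 ∧ dft (G ⊔ SimpleGraph.edge e.1 e.2) < dft G)) with hPdef
  have hcard := hP n s G hn hs hdeg hdft
  let H0 : SimpleGraph (Fin n) :=
    { Adj := fun a b => a ≠ b ∧ dft (G ⊔ SimpleGraph.edge a b) < dft G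
      symm := ⟨fun a b h => ⟨h.1.symm, by rw [SimpleGraph.edge_comm]; exact h.2⟩⟩
      loopless := ⟨fun a h => h.1 rfl⟩ }
  have hec : 2 * ec H0 = P.card := by
    have h2 := SimpleGraph.two_mul_card_edgeFinset H0
    have h3 : ec H0 = H0.edgeFinset.card := by
      unfold ec
      rw [Set.ncard_eq_toFinset_card']
      rfl
    rw [h3, h2]
  have hkey : EG n q (fun G' => if dft (G ⊔ G') < dft G then (0 : ℝ) else 1) ≤
      EG n q (fun Q => (0 : ℝ) ^ (ec (H0 ⊓ Q))) := by
    refine EG_mono h0 h1 fun Q => ?_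
    by_cases hQ : ec (H0 ⊓ Q) = 0
    · simp only [hQ, pow_zero]
      split_ifs <;> norm_num
    · rw [zero_pow hQ]
      have hne : (H0 ⊓ Q).edgeSet.Nonempty := by
        by_contra hcon
        rw [Set.not_nonempty_iff_eq_empty] at hcon
        apply hQ
        unfold ec
        rw [hcon, Set.ncard_empty]
      obtain ⟨e, he⟩ := hne
      induction e using Sym2.ind with
      | _ a b =>
        rw [SimpleGraph.mem_edgeSet] at he
        have h3 : H0.Adj a b := he.1
        have h4 : Q.Adj a b := he.2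
        have h5 : G ⊔ SimpleGraph.edge a b ≤ G ⊔ Q := by
          refine sup_le_sup_left ?_ G
          rw [SimpleGraph.edge_le_iff]
          exact Or.inr h4
        have h6 : dft (G ⊔ Q) < dft G := lt_of_le_of_lt (hD _ _ _ h5) h3.2
        rw [if_pos h6]
  refine hkey.trans ?_
  rw [hG n q 0 H0, mul_zero, add_zero]
  have h7 : 1 - q ≤ Real.exp (-q) := by
    have := Real.add_one_le_exp (-q)
    linarith
  calc (1 - q) ^ ec H0 ≤ (Real.exp (-q)) ^ ec H0 := pow_le_pow_left₀ (by linarith) h7 _
    _ = Real.exp (-(q * ec H0)) := by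
        rw [← Real.exp_nat_mul]
        congr 1
        ring
    _ ≤ Real.exp (-(q * ((s : ℝ) - 1) ^ 2 / 8)) := by
        apply Real.exp_le_exp.2
        have h8 : ((s : ℝ) - 1) ^ 2 ≤ 4 * (2 * (ec H0 : ℝ)) := by
          have h9 : ((s - 1 : ℕ) : ℝ) ^ 2 ≤ 4 * ((P.card : ℕ) : ℝ) := by exact_mod_cast hcard
          rw [Nat.cast_sub hs, Nat.cast_one, ← hec] at h9
          push_cast at h9
          linarith
        nlinarith

end Pool.Agent.W658.HC
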